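import Pool.Agent.Lib.MP_acafa7_al.F.H32.Free

open Finset

namespace Pool.Agent.Acafa7.F.H32

/-! ### The algebra of 5.1 and 6.1, packaged -/

section PACK
variable {B Y : Type*}

/-- the averaged 2-chain -/
def av3 [Group B] [Fintype B] (D : B → Y → Y → Y → ℤ) (x y w : Y) : ℤ :=
  (∑ b, D b x y w) / (Fintype.card B : ℤ)

theorem avg3 [Group B] [Fintype B] [MulAction B Y] (D : B → Y → Y → Y → ℤ)
    (hD : ∀ b b' x y w, D (b * b') x y w = D b x y w + D b' (b⁻¹ • x) (b⁻¹ • y) (b⁻¹ • w))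
    (b : B) (x y w : Y) :
    av3 D x y w - av3 D (b⁻¹ • x) (b⁻¹ • y) (b⁻¹ • w) = D b x y w :=
  avg (B := B) (X := Y × Y × Y) (fun b q => D b q.1 q.2.1 q.2.2)
    (fun b b' q => hD b b' q.1 q.2.1 q.2.2) b (x, y, w)

variable [Fintype Y]

theorem d2_smul [Group B] [MulAction B Y] {R : Type*} [CommRing R] (b : B) (f : Y → Y → Y → R)
    (a c : Y) : d2 (fun x y w => f (b • x) (b • y) (b • w)) a c = d2 f (b • a) (b • c) :=
  d2_perm (MulAction.toPerm b) f a c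

theorem d1_smul [Group B] [MulAction B Y] {R : Type*} [CommRing R] (b : B) (f : Y → Y → R)
    (a : Y) : d1 (fun x y => f (b • x) (b • y)) a = d1 f (b • a) :=
  d1_perm (MulAction.toPerm b) f a

theorem nu_inv [Group B] [Fintype B] [MulAction B Y] (D : B → Y → Y → Y → ℤ)
    (hD : ∀ b b' x y w, D (b * b') x y w = D b x y w + D b' (b⁻¹ • x) (b⁻¹ • y) (b⁻¹ • w))
    (gam : Y → Y → ℤ)
    (hd : ∀ b x y, d2 (D b) x y = gam x y - gam (b⁻¹ • x) (b⁻¹ • y)) (b : B) (x y : Y) :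
    gam (b • x) (b • y) - d2 (av3 D) (b • x) (b • y) = gam x y - d2 (av3 D) x y := by
  have h1 := hd b (b • x) (b • y)
  have h2 : D b = fun x y w => av3 D x y w - av3 D (b⁻¹ • x) (b⁻¹ • y) (b⁻¹ • w) := by
    funext x y w
    exact (avg3 D hD b x y w).symm
  rw [h2, d2_sub, d2_smul, inv_smul_smul, inv_smul_smul] at h1
  linarith

/-- 6.1, algebra -/
theorem alg61 [Group B] [Fintype B] [MulAction B Y] [DecidableEq Y] (p : ℕ) [Fact p.Prime]
    (hB : IsPGroup p B) (D : B → Y → Y → Y → ℤ)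
    (hD : ∀ b b' x y w, D (b * b') x y w = D b x y w + D b' (b⁻¹ • x) (b⁻¹ • y) (b⁻¹ • w))
    (gam : Y → Y → ℤ)
    (hd : ∀ b x y, d2 (D b) x y = gam x y - gam (b⁻¹ • x) (b⁻¹ • y))
    (y y' : Y) (hy : ∀ b : B, b • y = y) (hy' : ∀ b : B, b • y' = y')
    (hgam : ∀ a, d1 gam a = (if a = y' then 1 else 0) - (if a = y then 1 else 0)) :
    Relation.ReflTransGen (fun a c => (∀ b : B, b • a = a) ∧ (∀ b : B, b • c = c) ∧
      (gam a c ≠ 0 ∨ gam c a ≠ 0 ∨ ∃ T : Finset B, Fintype.card B ≤ 2 * T.card ∧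
        ((∀ b ∈ T, ∃ v, D b v a c ≠ 0 ∨ D b a v c ≠ 0 ∨ D b a c v ≠ 0) ∨
        (∀ b ∈ T, ∃ v, D b v c a ≠ 0 ∨ D b c v a ≠ 0 ∨ D b c a v ≠ 0)))) y y' := by
  classical
  have key : ∀ a c, (∀ b : B, b • a = a) → (∀ b : B, b • c = c) →
      gam a c - d2 (av3 D) a c ≠ 0 → gam a c ≠ 0 ∨ ∃ T : Finset B, Fintype.card B ≤ 2 * T.card ∧
        (∀ b ∈ T, ∃ v, D b v a c ≠ 0 ∨ D b a v c ≠ 0 ∨ D b a c v ≠ 0) := by
    intro a c ha hc h
    by_cases h0 : gam a c = 0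
    · right
      have h1 : d2 (av3 D) a c ≠ 0 := by
        intro h2; apply h; rw [h0, h2, sub_zero]
      have h3 : ∃ v, av3 D v a c ≠ 0 ∨ av3 D a v c ≠ 0 ∨ av3 D a c v ≠ 0 := by
        by_contra hcon
        apply h1
        have hz : ∀ v, av3 D v a c = 0 ∧ av3 D a v c = 0 ∧ av3 D a c v = 0 := by
          intro v
          refine ⟨?_, ?_, ?_⟩
          · by_contra h4; exact hcon ⟨v, Or.inl h4⟩
          · by_contra h4; exact hcon ⟨v, Or.inr (Or.inl h4)⟩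
          · by_contra h4; exact hcon ⟨v, Or.inr (Or.inr h4)⟩
        unfold d2
        simp only [fun v => (hz v).1, fun v => (hz v).2.1, fun v => (hz v).2.2,
          Finset.sum_const_zero, sub_zero, add_zero]
      let Z : Set (Y × Y × Y) := {q | ∃ v, q = (v, a, c) ∨ q = (a, v, c) ∨ q = (a, c, v)}
      have hZ : ∀ (b : B), ∀ q ∈ Z, b • q ∈ Z := by
        rintro b q ⟨v, h5 | h5 | h5⟩
        · exact ⟨b • v, Or.inl (by rw [h5]; simp [Prod.smul_def, ha, hc])⟩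
        · exact ⟨b • v, Or.inr (Or.inl (by rw [h5]; simp [Prod.smul_def, ha, hc]))⟩
        · exact ⟨b • v, Or.inr (Or.inr (by rw [h5]; simp [Prod.smul_def, ha, hc]))⟩
      obtain ⟨q, hq, hq2⟩ : ∃ q ∈ Z, av (fun b (q : Y × Y × Y) => D b q.1 q.2.1 q.2.2) q ≠ 0 := by
        obtain ⟨v, h5 | h5 | h5⟩ := h3
        · exact ⟨(v, a, c), ⟨v, Or.inl rfl⟩, h5⟩
        · exact ⟨(a, v, c), ⟨v, Or.inr (Or.inl rfl)⟩, h5⟩
        · exact ⟨(a, c, v), ⟨v, Or.inr (Or.inr rfl)⟩, h5⟩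
      obtain ⟨T, hT1, hT2⟩ := half_support (B := B) (X := Y × Y × Y)
        (fun b q => D b q.1 q.2.1 q.2.2) (fun b b' q => hD b b' q.1 q.2.1 q.2.2) Z hZ q hq hq2
      refine ⟨T, hT1, fun b hb => ?_⟩
      obtain ⟨q', ⟨v, h5 | h5 | h5⟩, hq3⟩ := hT2 b hb
      · rw [h5] at hq3; exact ⟨v, Or.inl hq3⟩
      · rw [h5] at hq3; exact ⟨v, Or.inr (Or.inl hq3)⟩
      · rw [h5] at hq3; exact ⟨v, Or.inr (Or.inr hq3)⟩
    · exact Or.inl h0
  have h := conn p hB (fun x y => gam x y - d2 (av3 D) x y)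
    (fun b x y => nu_inv D hD gam hd b x y) y y' hy hy' (fun a => by
      rw [d1_sub, hgam]
      have h0 : d1 (fun x y => d2 (av3 D) x y) a = 0 := d1_d2 (av3 D) a
      rw [h0, sub_zero])
  refine Relation.ReflTransGen.mono ?_ _ _ h
  rintro a c ⟨ha, hc, h1 | h1⟩
  · refine ⟨ha, hc, ?_⟩
    have h2 : gam a c - d2 (av3 D) a c ≠ 0 := by
      intro h3; apply h1; rw [h3]; simp
    rcases key a c ha hc h2 with h3 | ⟨T, hT1, hT2⟩
    · exact Or.inl h3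
    · exact Or.inr (Or.inr ⟨T, hT1, Or.inl hT2⟩)
  · refine ⟨ha, hc, ?_⟩
    have h2 : gam c a - d2 (av3 D) c a ≠ 0 := by
      intro h3; apply h1; rw [h3]; simp
    rcases key c a hc ha h2 with h3 | ⟨T, hT1, hT2⟩
    · exact Or.inr (Or.inl h3)
    · exact Or.inr (Or.inr ⟨T, hT1, Or.inr hT2⟩)

/-- 5.1, algebra -/
theorem alg51 [CommGroup B] [MulAction B Y] [DecidableEq Y] (p : ℕ) [hp : Fact p.Prime]
    (C : Subgroup B) [Fintype C] (hC : IsPGroup p C) (z : B) (hzp : z ^ p ∈ C)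
    (D : C → Y → Y → Y → ℤ)
    (hD : ∀ (b b' : C) x y w, D (b * b') x y w = D b x y w + D b' (b⁻¹ • x) (b⁻¹ • y) (b⁻¹ • w))
    (Dm : Y → Y → Y → ℤ)
    (hDm : ∀ (c : C) x y w, Dm x y w - Dm (c⁻¹ • x) (c⁻¹ • y) (c⁻¹ • w)
      = ∑ i ∈ range p, D c ((z⁻¹ ^ i) • x) ((z⁻¹ ^ i) • y) ((z⁻¹ ^ i) • w))
    (hDz : ∀ x y w, Dm x y w - Dm (z⁻¹ • x) (z⁻¹ • y) (z⁻¹ • w) = D ⟨z ^ p, hzp⟩ x y w)
    (gam : Y → Y → ℤ)
    (hdc : ∀ (c : C) x y, d2 (D c) x y = gam x y - gam (c⁻¹ • x) (c⁻¹ • y))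
    (hdm : ∀ x y, d2 Dm x y = ∑ i ∈ range p, gam ((z⁻¹ ^ i) • x) ((z⁻¹ ^ i) • y))
    (y : Y) (hy : ∀ c : C, c • y = y)
    (hgam : ∀ a, d1 gam a = (if a = z • y then 1 else 0) - (if a = y then 1 else 0)) :
    ∃ v : Y, (∀ c : C, c • v = v) ∧ z • v = v := by
  classical
  by_contra hcon
  -- Q and nu
  let Q : Y → Y → Y → ℤ := fun x y w => Dm x y w
    - ∑ i ∈ range p, av3 D ((z⁻¹ ^ i) • x) ((z⁻¹ ^ i) • y) ((z⁻¹ ^ i) • w)
  let nu : Y → Y → ℤ := fun x y => gam x y - d2 (av3 D) x y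
  have comm : ∀ (c : C) (i : ℕ) (x : Y), (z⁻¹ ^ i) • (c • x) = c • ((z⁻¹ ^ i) • x) := by
    intro c i x
    rw [Subgroup.smul_def, Subgroup.smul_def, ← mul_smul, ← mul_smul, mul_comm]
  have hQc : ∀ (c : C) x y w, Q (c • x) (c • y) (c • w) = Q x y w := by
    intro c x y w
    have h1 := hDm c (c • x) (c • y) (c • w)
    simp only [inv_smul_smul] at h1
    change Dm _ _ _ - _ = Dm _ _ _ - _
    have h2 : ∑ i ∈ range p, av3 D ((z⁻¹ ^ i) • (c • x)) ((z⁻¹ ^ i) • (c • y)) ((z⁻¹ ^ i) • (c • w))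
        - ∑ i ∈ range p, av3 D ((z⁻¹ ^ i) • x) ((z⁻¹ ^ i) • y) ((z⁻¹ ^ i) • w)
        = ∑ i ∈ range p, D c ((z⁻¹ ^ i) • (c • x)) ((z⁻¹ ^ i) • (c • y)) ((z⁻¹ ^ i) • (c • w)) := by
      rw [← Finset.sum_sub_distrib]
      refine Finset.sum_congr rfl fun i _ => ?_
      have h3 := avg3 D hD c ((z⁻¹ ^ i) • (c • x)) ((z⁻¹ ^ i) • (c • y)) ((z⁻¹ ^ i) • (c • w))
      rw [← h3]
      congr 1
      simp only [comm, inv_smul_smul]
    linarith
  have hQz : ∀ x y w, Q (z • x) (z • y) (z • w) = Q x y w := by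
    intro x y w
    have h1 := hDz (z • x) (z • y) (z • w)
    simp only [inv_smul_smul] at h1
    change Dm _ _ _ - _ = Dm _ _ _ - _
    have h3 := avg3 D hD ⟨z ^ p, hzp⟩ (z • x) (z • y) (z • w)
    have h4 : ∀ i : ℕ, ∀ x : Y, (z⁻¹ ^ (i + 1)) • (z • x) = (z⁻¹ ^ i) • x := by
      intro i x
      rw [← mul_smul, pow_succ, mul_assoc, inv_mul_cancel, mul_one]
    have h5 : ∀ x : Y, ((⟨z ^ p, hzp⟩ : C)⁻¹) • (z • x) = (z⁻¹ ^ p) • (z • x) := by
      intro x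
      rw [Subgroup.smul_def]
      congr 1
      simp
    obtain ⟨q, hq⟩ : ∃ q, p = q + 1 := ⟨p - 1, by have := hp.out.pos; omega⟩
    have h2 : ∑ i ∈ range p, av3 D ((z⁻¹ ^ i) • (z • x)) ((z⁻¹ ^ i) • (z • y)) ((z⁻¹ ^ i) • (z • w))
        = av3 D (z • x) (z • y) (z • w)
        + (∑ i ∈ range p, av3 D ((z⁻¹ ^ i) • x) ((z⁻¹ ^ i) • y) ((z⁻¹ ^ i) • w))
        - av3 D ((z⁻¹ ^ p) • (z • x)) ((z⁻¹ ^ p) • (z • y)) ((z⁻¹ ^ p) • (z • w)) := by
      have e1 := Finset.sum_range_succ (fun i => av3 D ((z⁻¹ ^ i) • (z • x)) ((z⁻¹ ^ i) • (z • y))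
        ((z⁻¹ ^ i) • (z • w))) p
      have e2 := Finset.sum_range_succ' (fun i => av3 D ((z⁻¹ ^ i) • (z • x)) ((z⁻¹ ^ i) • (z • y))
        ((z⁻¹ ^ i) • (z • w))) p
      simp only [h4, pow_zero, one_smul] at e2
      rw [e1] at e2
      linarith
    rw [h2]
    rw [h5, h5, h5] at h3
    linarith
  have hnuc : ∀ (c : C) x y, nu (c • x) (c • y) = nu x y := fun c x y =>
    nu_inv D hD gam hdc c x y
  have hdQ : ∀ a c, d2 Q a c = ∑ i ∈ range p, nu ((z⁻¹ ^ i) • a) ((z⁻¹ ^ i) • c) := by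
    intro a c
    change d2 (fun x y w => Dm x y w
      - ∑ i ∈ range p, av3 D ((z⁻¹ ^ i) • x) ((z⁻¹ ^ i) • y) ((z⁻¹ ^ i) • w)) a c = _
    rw [d2_sub, d2_sum]
    have h1 : d2 (fun x y w => Dm x y w) a c = d2 Dm a c := rfl
    rw [h1, hdm, ← Finset.sum_sub_distrib]
    refine Finset.sum_congr rfl fun i _ => ?_
    rw [d2_smul]
  have hdnu : ∀ a, d1 nu a = (if a = z • y then 1 else 0) - (if a = y then 1 else 0) := by
    intro a
    change d1 (fun x y => gam x y - d2 (av3 D) x y) a = _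
    rw [d1_sub]
    have h0 : d1 (fun x y => d2 (av3 D) x y) a = 0 := d1_d2 (av3 D) a
    have h1 : d1 (fun x y => gam x y) a = d1 gam a := rfl
    rw [h0, sub_zero, h1, hgam]
  -- the fixed vertices of C
  let P : Type _ := {v : Y // ∀ c : C, c • v = v}
  have hzP : ∀ (g : B) (v : P), ∀ c : C, c • (g • v.1) = g • v.1 := by
    intro g v c
    have h := v.2 c
    rw [Subgroup.smul_def] at h ⊢
    rw [← mul_smul, mul_comm, mul_smul, h]
  let zP : Equiv.Perm P :=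
    { toFun := fun v => ⟨z • v.1, hzP z v⟩
      invFun := fun v => ⟨z⁻¹ • v.1, hzP z⁻¹ v⟩
      left_inv := fun v => Subtype.ext (inv_smul_smul z v.1)
      right_inv := fun v => Subtype.ext (smul_inv_smul z v.1) }
  have hzi : ∀ (i : ℕ) (v : P), ((zP⁻¹ ^ i : Equiv.Perm P) v).1 = (z⁻¹ ^ i) • v.1 := by
    intro i
    induction i with
    | zero => intro v; simp
    | succ i ih =>
      intro v
      rw [pow_succ, Equiv.Perm.mul_apply, ih, pow_succ, mul_smul]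
      rfl
  have hzi' : ∀ (i : ℕ) (v : P), ((zP ^ i : Equiv.Perm P) v).1 = (z ^ i) • v.1 := by
    intro i
    induction i with
    | zero => intro v; simp
    | succ i ih =>
      intro v
      rw [pow_succ, Equiv.Perm.mul_apply, ih, pow_succ, mul_smul]
      rfl
  have hzP1 : zP ^ p = 1 := by
    ext1 v
    apply Subtype.ext
    rw [hzi']
    exact v.2 ⟨z ^ p, hzp⟩
  have hfree : ∀ v, zP v ≠ v := by
    intro v h
    exact hcon ⟨v.1, v.2, congrArg Subtype.val h⟩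
  have hsum : ∀ f : Y → ZMod p, ∑ v : P, f v.1
      = ∑ v, if (∀ c : C, c • v = v) then f v else 0 := by
    intro f
    rw [← Finset.sum_filter]
    exact (Finset.sum_subtype (univ.filter (fun v => ∀ c : C, c • v = v))
      (fun x => by simp) f).symm
  let E : P → P → P → ZMod p := fun a b c => ((Q a.1 b.1 c.1 : ℤ) : ZMod p)
  let nuP : P → P → ZMod p := fun a b => ((nu a.1 b.1 : ℤ) : ZMod p)
  have hd2 : ∀ a b : P, d2 E a b = ((d2 Q a.1 b.1 : ℤ) : ZMod p) := by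
    intro a b
    rw [← d2_fix p hC Q (fun c x y w => hQc c x y w) a.1 b.1 a.2 b.2]
    unfold d2
    have e1 : ∑ v : P, E v a b = ∑ v, fix2 C p Q v a.1 b.1 := by
      refine (hsum (fun v => ((Q v a.1 b.1 : ℤ) : ZMod p))).trans ?_
      refine Finset.sum_congr rfl fun v _ => ?_
      unfold fix2
      simp [a.2, b.2]
    have e2 : ∑ v : P, E a v b = ∑ v, fix2 C p Q a.1 v b.1 := by
      refine (hsum (fun v => ((Q a.1 v b.1 : ℤ) : ZMod p))).trans ?_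
      refine Finset.sum_congr rfl fun v _ => ?_
      unfold fix2
      simp [a.2, b.2]
    have e3 : ∑ v : P, E a b v = ∑ v, fix2 C p Q a.1 b.1 v := by
      refine (hsum (fun v => ((Q a.1 b.1 v : ℤ) : ZMod p))).trans ?_
      refine Finset.sum_congr rfl fun v _ => ?_
      unfold fix2
      simp [a.2, b.2]
    rw [e1, e2, e3]
  have hd1 : ∀ a : P, d1 nuP a = ((d1 nu a.1 : ℤ) : ZMod p) := by
    intro a
    rw [← d1_fix p hC nu (fun c x y => hnuc c x y) a.1 a.2]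
    unfold d1
    have e1 : ∑ v : P, nuP v a = ∑ v, fix1 C p nu v a.1 := by
      refine (hsum (fun v => ((nu v a.1 : ℤ) : ZMod p))).trans ?_
      refine Finset.sum_congr rfl fun v _ => ?_
      unfold fix1
      simp [a.2]
    have e2 : ∑ v : P, nuP a v = ∑ v, fix1 C p nu a.1 v := by
      refine (hsum (fun v => ((nu a.1 v : ℤ) : ZMod p))).trans ?_
      refine Finset.sum_congr rfl fun v _ => ?_
      unfold fix1
      simp [a.2]
    rw [e1, e2]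
  refine free_action p zP hzP1 hfree E nuP ⟨y, hy⟩ ?_ ?_ ?_
  · intro a b c
    change ((Q (z • a.1) (z • b.1) (z • c.1) : ℤ) : ZMod p) = ((Q a.1 b.1 c.1 : ℤ) : ZMod p)
    rw [hQz]
  · intro a b
    rw [hd2, hdQ, Int.cast_sum]
    refine Finset.sum_congr rfl fun i _ => ?_
    change _ = ((nu _ _ : ℤ) : ZMod p)
    rw [hzi, hzi]
  · intro a
    rw [hd1, hdnu]
    have e1 : (a = zP ⟨y, hy⟩) ↔ a.1 = z • y := by
      constructor
      · intro h; rw [h]; rfl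
      · intro h; exact Subtype.ext h
    have e2 : (a = (⟨y, hy⟩ : P)) ↔ a.1 = y := by
      constructor
      · intro h; rw [h]
      · intro h; exact Subtype.ext h
    simp only [e1, e2]
    push_cast
    rfl

end PACK

end Pool.Agent.Acafa7.F.H32
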