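import Pool.Agent.Lib.MP_acafa7_al.F.IfaceC
import Pool.Agent.Lib.MP_acafa7_al.F.H32.Pack

namespace MSG.F32

open Classical Pool.Agent.Acafa7.F.H32

theorem avg_st : AvgStatement := by
  intro B Y _ _ _ B' D hD
  let D0 : B' → Y → Y → Y → ℤ := fun b => D b.1
  have hD0 : ∀ (b b' : B') x y w, D0 (b * b') x y w
      = D0 b x y w + D0 b' (b⁻¹ • x) (b⁻¹ • y) (b⁻¹ • w) := by
    intro b b' x y w
    have h := hD b.1 b.2 b'.1 b'.2
    have h2 := congrFun (congrFun (congrFun h x) y) w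
    exact h2
  refine ⟨av3 D0, ?_, ?_⟩
  · intro b hb
    funext x y w
    have h := avg3 D0 hD0 ⟨b, hb⟩ x y w
    exact h
  · intro P Q R h
    unfold av3
    have : ∑ b : B', D0 b P Q R = 0 := Finset.sum_eq_zero fun b _ => h b.1 b.2
    rw [this]
    simp

end MSG.F32
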