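import Pool.Agent.Lib.MP_acafa7_al.F.H32.Connp

namespace MSG.F32

open Classical Pool.Agent.Acafa7.F.H32

theorem bd2_eq {Y : Type} [Fintype Y] (c : Y → ℕ) (N : Ch2 Y) (hN : Inc2 c N) :
    bd2 c N = d2 N := by
  funext P Q
  unfold bd2 d2
  by_cases h0 : c P < c Q
  · rw [if_pos h0, Finset.sum_add_distrib, Finset.sum_sub_distrib]
    ring
  · rw [if_neg h0]
    have s1 : ∑ R, N R P Q = 0 := Finset.sum_eq_zero fun R _ => hN _ _ _ (fun h => h0 h.2)
    have s2 : ∑ R, N P R Q = 0 :=
      Finset.sum_eq_zero fun R _ => hN _ _ _ (fun h => h0 (h.1.trans h.2))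
    have s3 : ∑ R, N P Q R = 0 := Finset.sum_eq_zero fun R _ => hN _ _ _ (fun h => h0 h.1)
    rw [s1, s2, s3]; ring

theorem enge_st (_ : AvgStatement) (_ : FixStatement) (_ : FreeStatement) : EngEStatement := by
  intro p hp B Y instG _ _ _ c hcomm hB hc B' z hidx hz γ D Dm y _ hD2 hDm2 hD hdD hγ hy hDm hDmz hdDm
  let _ : CommGroup B := { instG with mul_comm := hcomm }
  have hzp : z ^ p ∈ B' := by
    have h := B'.pow_index_mem z
    rwa [hidx] at h
  have key : ∃ v : Y, (∀ c : B', c • v = v) ∧ z • v = v := by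
    refine alg51 (B := B) p B' (hB.to_subgroup B') z hzp (fun b => D b.1) ?_ Dm ?_ ?_ γ ?_ ?_ y
      (fun b => hy b.1 b.2) ?_
    · intro b b' x y w
      have h := hD b.1 b.2 b'.1 b'.2
      exact congrFun (congrFun (congrFun h x) y) w
    · intro b x y w
      have h := congrFun (congrFun (congrFun (hDm b.1 b.2) x) y) w
      simp only [Pi.sub_apply, Finset.sum_apply, ac2] at h
      rw [show (∑ i ∈ Finset.range p, (fun b : B' => D b.1) b ((z⁻¹ ^ i) • x) ((z⁻¹ ^ i) • y) ((z⁻¹ ^ i) • w))
        = ∑ i ∈ Finset.range p, D b.1 ((z ^ i)⁻¹ • x) ((z ^ i)⁻¹ • y) ((z ^ i)⁻¹ • w) from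
        Finset.sum_congr rfl fun i _ => by rw [inv_pow]]
      exact h
    · intro x y w
      have h := congrFun (congrFun (congrFun hDmz x) y) w
      exact h
    · intro b x y
      have h := congrFun (congrFun (hdD b.1 b.2) x) y
      rw [bd2_eq c _ (hD2 b.1 b.2)] at h
      exact h
    · intro x y
      have h := congrFun (congrFun hdDm x) y
      rw [bd2_eq c _ hDm2] at h
      simp only [Finset.sum_apply, ac1] at h
      rw [h]
      exact Finset.sum_congr rfl fun i _ => by rw [inv_pow]
    · intro a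
      rw [← bd1_eq, hγ]
      simp only [kr, eq_comm]
  obtain ⟨v, h1, h2⟩ := key
  refine ⟨v, ?_⟩
  -- the stabilizer
  let St : Subgroup B := MulAction.stabilizer B v
  have hle : B' ≤ St := by
    intro b hb
    exact h1 ⟨b, hb⟩
  have hzS : z ∈ St := h2
  have hidx2 : St.index ∣ B'.index := Subgroup.index_dvd_of_le hle
  have hSt : St = ⊤ := by
    rw [hidx, Nat.dvd_prime hp.out] at hidx2
    rcases hidx2 with h | h
    · exact Subgroup.index_eq_one.mp h
    · exfalso
      have h3 : B'.relIndex St * St.index = B'.index := Subgroup.relIndex_mul_index hle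
      rw [h, hidx] at h3
      have h4 : B'.relIndex St = 1 := by
        have hpp := hp.out.pos
        exact Nat.eq_of_mul_eq_mul_right hpp (by rw [h3, one_mul])
      have h5 : St ≤ B' := Subgroup.relIndex_eq_one.mp h4
      exact hz (h5 hzS)
  intro b
  have : b ∈ St := by rw [hSt]; exact Subgroup.mem_top b
  exact this

end MSG.F32
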