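import Pool.Agent.Lib.MP_acafa7_al.MS.H09.Ang
import Pool.Agent.Lib.MP_acafa7_al.MS.H57.QuadA
import Pool.Agent.Lib.MP_acafa7_al.MS.H47.FanG

/-! Section 2.2 of PaperF.md: areas of triangles, the area of a fan, the area of a flip. -/

open Finset

namespace Pool.Agent.Acafa7.F.H32

open MSG

/-- area of the triangle with sides `a b c` -/
noncomputable def ar (a b c : ℝ) : ℝ := a * b * Real.sin (ang a b c) / 2

theorem ar_comm (a b c : ℝ) : ar a b c = ar b a c := by
  unfold ar; rw [H57.ang_comm a b c]; ring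

theorem ar_swap {a b c : ℝ} (h : Tr a b c) : ar a b c = ar a c b := by
  unfold ar
  have := (H57.proj_height h).2
  linear_combination (a / 2) * this

theorem ar_rot {a b c : ℝ} (h : Tr a b c) : ar a b c = ar b c a := by
  rw [ar_comm, ar_swap (H47.Tr.swap h)]

theorem ar_pos {a b c : ℝ} (h : Tr a b c) : 0 < ar a b c := by
  unfold ar
  have h1 : 0 < Real.sin (ang a b c) := Real.sin_pos_of_pos_of_lt_pi (H57.ang_pos h) (H57.ang_lt_pi h)
  have := h.px; have := h.py
  positivity

theorem ang_sum {a b c : ℝ} (h : Tr a b c) :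
    ang a b c + ang b c a + ang c a b = Real.pi :=
  (H09.ang a b c h.px h.py h.pz h.hx h.hy h.hz).2.2.1

/-- half angle: `(1 - cos x) = sin x tan (x/2)` -/
theorem one_sub_cos (x : ℝ) (h0 : 0 < x) (h1 : x < Real.pi) :
    1 - Real.cos x = Real.sin x * Real.tan (x / 2) := by
  have hc : 0 < Real.cos (x / 2) := Real.cos_pos_of_mem_Ioo ⟨by linarith, by linarith⟩
  have e1 : Real.sin x = 2 * Real.sin (x / 2) * Real.cos (x / 2) := by
    rw [← Real.sin_two_mul]; congr 1; ring
  have e2 : Real.cos x = 1 - 2 * Real.sin (x / 2) ^ 2 := by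
    have h := Real.cos_two_mul (x / 2)
    have h2 := Real.sin_sq_add_cos_sq (x / 2)
    rw [show 2 * (x / 2) = x by ring] at h
    rw [h]; linarith
  rw [e1, e2, Real.tan_eq_sin_div_cos]
  field_simp
  ring

/-- the step inequality of 2.2 -/
theorem step_ineq (al B e : ℝ) (he0 : 0 ≤ e) (_ : e ≤ Real.pi) (hB : 0 < B)
    (hB' : B + e < Real.pi) (hal : 0 < al) (hs : al + B ≤ Real.pi) :
    Real.cos al - Real.sin al * Real.tan (B / 2) ≤
      Real.cos (al - e) - Real.sin (al - e) * Real.tan ((B + e) / 2) := by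
  have c1 : 0 < Real.cos (B / 2) := Real.cos_pos_of_mem_Ioo ⟨by linarith [Real.pi_pos], by linarith⟩
  have c2 : 0 < Real.cos ((B + e) / 2) :=
    Real.cos_pos_of_mem_Ioo ⟨by linarith [Real.pi_pos], by linarith⟩
  have f1 : Real.cos al - Real.sin al * Real.tan (B / 2) = Real.cos (al + B / 2) / Real.cos (B / 2) := by
    rw [Real.cos_add, Real.tan_eq_sin_div_cos]
    field_simp
  have f2 : Real.cos (al - e) - Real.sin (al - e) * Real.tan ((B + e) / 2)
      = Real.cos (al - e + (B + e) / 2) / Real.cos ((B + e) / 2) := by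
    rw [Real.cos_add (al - e), Real.tan_eq_sin_div_cos]
    field_simp
  rw [f1, f2, div_le_div_iff₀ c1 c2]
  have s1 : 0 ≤ Real.sin (al + B) := Real.sin_nonneg_of_nonneg_of_le_pi (by linarith) hs
  have s2 : 0 ≤ Real.sin (e / 2) := Real.sin_nonneg_of_nonneg_of_le_pi (by linarith) (by linarith)
  have key : Real.cos (al - e + (B + e) / 2) * Real.cos (B / 2)
      - Real.cos (al + B / 2) * Real.cos ((B + e) / 2) = Real.sin (al + B) * Real.sin (e / 2) := by
    set A := al + B / 2 with hA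
    have g1 : al - e + (B + e) / 2 = A - e / 2 := by rw [hA]; ring
    have g2 : (B + e) / 2 = B / 2 + e / 2 := by ring
    have g3 : al + B = A + B / 2 := by rw [hA]; ring
    rw [g1, g2, g3, Real.cos_sub, Real.cos_add (B / 2), Real.sin_add A]
    ring
  nlinarith [mul_nonneg s1 s2]

variable {k : ℕ} {r c : ℕ → ℝ}

/-- one sided estimate -/
theorem left_est (hT : ∀ j, j < k → Tr (r j) (c j) (r (j + 1)))
    (hang : ∀ j, j + 1 < k → Real.pi ≤
      ang (r (j + 1)) (c j) (r j) + ang (c (j + 1)) (r (j + 1)) (r (j + 2)))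
    (hth : ∑ j ∈ range k, ang (r j) (r (j + 1)) (c j) < Real.pi) (j : ℕ) (hj : j < k) :
    0 < ang (c j) (r j) (r (j + 1)) - ∑ i ∈ range j, ang (r i) (r (i + 1)) (c i) ∧
    r j * Real.sin (ang (c j) (r j) (r (j + 1))) *
      Real.tan ((ang (c j) (r j) (r (j + 1)) - ∑ i ∈ range j, ang (r i) (r (i + 1)) (c i)) / 2) ≤
    r 0 - ∑ i ∈ range j, c i - r j * Real.cos (ang (c j) (r j) (r (j + 1))) := by
  have hthp : ∀ i, i < k → 0 < ang (r i) (r (i + 1)) (c i) := by
    intro i hi
    have h := H57.ang_pos (H57.trSwap (hT i hi))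
    exact h
  have hthm : ∀ i, i ≤ k → ∑ j ∈ range i, ang (r j) (r (j + 1)) (c j) < Real.pi := by
    intro i hi
    refine lt_of_le_of_lt ?_ hth
    apply Finset.sum_le_sum_of_subset_of_nonneg
    · intro x hx; rw [Finset.mem_range] at hx ⊢; omega
    · intro x hx _; rw [Finset.mem_range] at hx; exact (hthp x hx).le
  have hth0 : ∀ i, i ≤ k → 0 ≤ ∑ j ∈ range i, ang (r j) (r (j + 1)) (c j) := by
    intro i hi
    apply Finset.sum_nonneg
    intro x hx; rw [Finset.mem_range] at hx; exact (hthp x (by omega)).le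
  induction j with
  | zero =>
    have hp := H57.ang_pos (H47.Tr.swap (hT 0 hj))
    have hl := H57.ang_lt_pi (H47.Tr.swap (hT 0 hj))
    simp only [Finset.range_zero, Finset.sum_empty, sub_zero, zero_add]
    simp only [zero_add] at hp hl
    refine ⟨hp, ?_⟩
    have h := one_sub_cos _ hp hl
    rw [mul_assoc, ← h]
    linarith
  | succ j ih =>
    obtain ⟨ih1, ih2⟩ := ih (by omega)
    have hT0 := hT j (by omega)
    have hT1 := hT (j + 1) hj
    have ha := hang j hj
    set be := ang (c j) (r j) (r (j + 1)) with hbe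
    set be' := ang (c (j + 1)) (r (j + 1)) (r (j + 1 + 1)) with hbe'
    set al := ang (r (j + 1)) (c j) (r j) with hal
    set Th := ∑ i ∈ range j, ang (r i) (r (i + 1)) (c i) with hTh
    have hsum : ∑ i ∈ range (j + 1), ang (r i) (r (i + 1)) (c i) = Th + ang (r j) (r (j + 1)) (c j) := by
      rw [Finset.sum_range_succ]
    have h3 : be + al + ang (r j) (r (j + 1)) (c j) = Real.pi := by
      have h := ang_sum hT0
      rw [H57.ang_comm (r j) (c j), H57.ang_comm (c j) (r (j + 1)), H57.ang_comm (r (j + 1)) (r j)] at h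
      exact h
    have hlt := hthm (j + 1) (by omega)
    have hTh0 := hth0 j (by omega)
    rw [hsum] at hlt ⊢
    set th := ang (r j) (r (j + 1)) (c j) with hth'
    -- new B
    set e := al + be' - Real.pi with he
    have hB : be' - (Th + th) = (be - Th) + e := by rw [he]; linarith
    have he0 : 0 ≤ e := by rw [he]; linarith
    have hbe'lt : be' < Real.pi := H57.ang_lt_pi (H47.Tr.swap hT1)
    have hbe'pos : 0 < be' := H57.ang_pos (H47.Tr.swap hT1)
    have hallt : al < Real.pi := H57.ang_lt_pi (H47.Tr.swap (H47.Tr.rot hT0))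
    have halpos : 0 < al := H57.ang_pos (H47.Tr.swap (H47.Tr.rot hT0))
    have hthpos : 0 < th := hthp j (by omega)
    have he1 : e ≤ Real.pi := by rw [he]; linarith
    have hBe : (be - Th) + e < Real.pi := by rw [← hB]; linarith
    have hs : al + (be - Th) ≤ Real.pi := by linarith
    have hst := step_ineq al (be - Th) e he0 he1 ih1 hBe halpos hs
    rw [hB]
    refine ⟨by linarith, ?_⟩
    have hside : c j = r j * Real.cos be + r (j + 1) * Real.cos al := H47.side hT0
    have hh : r j * Real.sin be = r (j + 1) * Real.sin al := by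
      have h := (H57.proj_height (H47.Tr.swap hT0)).2
      rw [H57.ang_comm (c j) (r (j + 1))] at h
      exact h
    have hcos : Real.cos be' = - Real.cos (al - e) := by
      have : be' = Real.pi - (al - e) := by rw [he]; ring
      rw [this, Real.cos_pi_sub]
    have hsin : Real.sin be' = Real.sin (al - e) := by
      have : be' = Real.pi - (al - e) := by rw [he]; ring
      rw [this, Real.sin_pi_sub]
    rw [Finset.sum_range_succ, hcos, hsin]
    have hr : 0 < r (j + 1) := hT0.pz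
    have hmul := mul_le_mul_of_nonneg_left hst hr.le
    rw [hh] at ih2
    nlinarith

theorem split_sum (f : ℕ → ℝ) (k j : ℕ) (hj : j < k) :
    ∑ i ∈ range k, f i = ∑ i ∈ range j, f i + f j + ∑ i ∈ range (k - 1 - j), f (k - 1 - i) := by
  obtain ⟨m, rfl⟩ : ∃ m, k = j + 1 + m := ⟨k - (j + 1), by omega⟩
  have e : j + 1 + m - 1 - j = m := by omega
  rw [e, Finset.sum_range_add, Finset.sum_range_succ]
  congr 1
  rw [← Finset.sum_range_reflect]
  refine Finset.sum_congr rfl fun i hi => ?_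
  rw [Finset.mem_range] at hi
  congr 1
  omega

/-- two sided estimate: `h_j * tau <= 2 * Dl` -/
theorem height_est (hT : ∀ j, j < k → Tr (r j) (c j) (r (j + 1)))
    (hang : ∀ j, j + 1 < k → Real.pi ≤
      ang (r (j + 1)) (c j) (r j) + ang (c (j + 1)) (r (j + 1)) (r (j + 2)))
    (hth : ∑ j ∈ range k, ang (r j) (r (j + 1)) (c j) < Real.pi) (j : ℕ) (hj : j < k) :
    r j * Real.sin (ang (c j) (r j) (r (j + 1))) *
      (Real.pi - ∑ i ∈ range k, ang (r i) (r (i + 1)) (c i)) ≤
    2 * (r 0 + r k - ∑ i ∈ range k, c i) := by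
  obtain ⟨l1, l2⟩ := left_est hT hang hth j hj
  -- the reversed fan
  let r' : ℕ → ℝ := fun i => r (k - i)
  let c' : ℕ → ℝ := fun i => c (k - 1 - i)
  have hT' : ∀ i, i < k → Tr (r' i) (c' i) (r' (i + 1)) := by
    intro i hi
    have h := hT (k - 1 - i) (by omega)
    have e1 : k - 1 - i + 1 = k - i := by omega
    have e2 : k - (i + 1) = k - 1 - i := by omega
    change Tr (r (k - i)) (c (k - 1 - i)) (r (k - (i + 1)))
    rw [e2]
    rw [e1] at h
    exact H47.Tr.swap (H47.Tr.rot h)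
  have hang' : ∀ i, i + 1 < k → Real.pi ≤
      ang (r' (i + 1)) (c' i) (r' i) + ang (c' (i + 1)) (r' (i + 1)) (r' (i + 2)) := by
    intro i hi
    have h := hang (k - 2 - i) (by omega)
    have e1 : k - 2 - i + 1 = k - 1 - i := by omega
    have e2 : k - 2 - i + 2 = k - i := by omega
    rw [e1, e2] at h
    change Real.pi ≤ ang (r (k - (i + 1))) (c (k - 1 - i)) (r (k - i)) +
      ang (c (k - 1 - (i + 1))) (r (k - (i + 1))) (r (k - (i + 2)))
    have e3 : k - (i + 1) = k - 1 - i := by omega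
    have e4 : k - 1 - (i + 1) = k - 2 - i := by omega
    have e5 : k - (i + 2) = k - 2 - i := by omega
    rw [e3, e4, e5, H57.ang_comm (r (k - 1 - i)) (c (k - 1 - i)),
      H57.ang_comm (c (k - 2 - i)) (r (k - 1 - i))]
    linarith
  have hterm : ∀ i, i < k → ang (r' i) (r' (i + 1)) (c' i)
      = ang (r (k - 1 - i)) (r (k - 1 - i + 1)) (c (k - 1 - i)) := by
    intro i hi
    change ang (r (k - i)) (r (k - (i + 1))) (c (k - 1 - i)) = _
    have e1 : k - 1 - i + 1 = k - i := by omega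
    have e2 : k - (i + 1) = k - 1 - i := by omega
    rw [e1, e2, H57.ang_comm]
  have hth' : ∑ i ∈ range k, ang (r' i) (r' (i + 1)) (c' i) < Real.pi := by
    rw [Finset.sum_congr rfl (fun i hi => hterm i (Finset.mem_range.mp hi))]
    rw [Finset.sum_range_reflect (fun i => ang (r i) (r (i + 1)) (c i))]
    exact hth
  obtain ⟨m1, m2⟩ := left_est hT' hang' hth' (k - 1 - j) (by omega)
  have hs : ∑ i ∈ range (k - 1 - j), ang (r' i) (r' (i + 1)) (c' i)
      = ∑ i ∈ range (k - 1 - j), ang (r (k - 1 - i)) (r (k - 1 - i + 1)) (c (k - 1 - i)) := by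
    refine Finset.sum_congr rfl fun i hi => ?_
    rw [Finset.mem_range] at hi
    exact hterm i (by omega)
  rw [hs] at m1 m2
  have e0 : c' (k - 1 - j) = c j := by
    change c _ = c _
    congr 1; omega
  have e1 : r' (k - 1 - j) = r (j + 1) := by
    change r _ = r _
    congr 1; omega
  have e2 : r' (k - 1 - j + 1) = r j := by
    change r _ = r _
    congr 1; omega
  have e3 : r' 0 = r k := rfl
  rw [e0, e1, e2] at m1 m2
  rw [e3] at m2
  have hc' : ∑ i ∈ range (k - 1 - j), c' i = ∑ i ∈ range (k - 1 - j), c (k - 1 - i) := rfl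
  rw [hc'] at m2
  have S1 := split_sum (fun i => ang (r i) (r (i + 1)) (c i)) k j hj
  have S2 := split_sum c k j hj
  set X1 := ∑ i ∈ range j, ang (r i) (r (i + 1)) (c i)
  set X2 := ∑ i ∈ range (k - 1 - j), ang (r (k - 1 - i)) (r (k - 1 - i + 1)) (c (k - 1 - i))
  set Y1 := ∑ i ∈ range j, c i
  set Y2 := ∑ i ∈ range (k - 1 - j), c (k - 1 - i)
  have hT0 := hT j hj
  have h3 : ang (c j) (r j) (r (j + 1)) + ang (c j) (r (j + 1)) (r j) +
      ang (r j) (r (j + 1)) (c j) = Real.pi := by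
    have h := ang_sum hT0
    rw [H57.ang_comm (r j) (c j), H57.ang_comm (r (j + 1)) (r j)] at h
    exact h
  have hside : c j = r j * Real.cos (ang (c j) (r j) (r (j + 1))) +
      r (j + 1) * Real.cos (ang (c j) (r (j + 1)) (r j)) := by
    have h := H47.side hT0
    rw [H57.ang_comm (r (j + 1)) (c j)] at h
    exact h
  have hh : r j * Real.sin (ang (c j) (r j) (r (j + 1))) =
      r (j + 1) * Real.sin (ang (c j) (r (j + 1)) (r j)) :=
    (H57.proj_height (H47.Tr.swap hT0)).2
  rw [← hh] at m2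
  set be := ang (c j) (r j) (r (j + 1))
  set al := ang (c j) (r (j + 1)) (r j)
  set th := ang (r j) (r (j + 1)) (c j)
  have hbelt : be < Real.pi := H57.ang_lt_pi (H47.Tr.swap hT0)
  have hallt : al < Real.pi := H57.ang_lt_pi (H47.Tr.rot hT0)
  have hbe0 : 0 < be := H57.ang_pos (H47.Tr.swap hT0)
  have hX1 : 0 ≤ X1 := Finset.sum_nonneg fun i _ => H47.ang_nonneg _ _ _
  have hX2 : 0 ≤ X2 := Finset.sum_nonneg fun i _ => H47.ang_nonneg _ _ _
  have hh0 : 0 ≤ r j * Real.sin be :=
    mul_nonneg hT0.px.le (Real.sin_nonneg_of_nonneg_of_le_pi hbe0.le hbelt.le)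
  have t1 : (be - X1) / 2 ≤ Real.tan ((be - X1) / 2) :=
    Real.le_tan (by linarith) (by linarith)
  have t2 : (al - X2) / 2 ≤ Real.tan ((al - X2) / 2) :=
    Real.le_tan (by linarith) (by linarith)
  have u1 := mul_le_mul_of_nonneg_left t1 hh0
  have u2 := mul_le_mul_of_nonneg_left t2 hh0
  rw [S1, S2]
  have h4 : Real.pi - (X1 + th + X2) = (be - X1) + (al - X2) := by linarith
  rw [h4]
  nlinarith

theorem fan_dl (hT : ∀ j, j < k → Tr (r j) (c j) (r (j + 1)))
    (hang : ∀ j, j + 1 < k → Real.pi ≤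
      ang (r (j + 1)) (c j) (r j) + ang (c (j + 1)) (r (j + 1)) (r (j + 2))) (hk : 1 ≤ k) :
    0 ≤ r 0 + r k - ∑ j ∈ range k, c j := by
  have h := H47.fang k r c hk hT hang
  have h1 := Real.cos_le_one (ang (c 0) (r 0) (r 1))
  have h2 := Real.cos_le_one (ang (r k) (c (k - 1)) (r (k - 1)))
  have h3 := (hT 0 (by omega)).px
  have h4 := (hT (k - 1) (by omega)).pz
  have e : k - 1 + 1 = k := by omega
  rw [e] at h4
  nlinarith

/-- 2.2, the area of a fan -/
theorem fan_area (hk : 1 ≤ k) (hT : ∀ j, j < k → Tr (r j) (c j) (r (j + 1)))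
    (hang : ∀ j, j + 1 < k → Real.pi ≤
      ang (r (j + 1)) (c j) (r j) + ang (c (j + 1)) (r (j + 1)) (r (j + 2)))
    (hth : ∑ j ∈ range k, ang (r j) (r (j + 1)) (c j) < Real.pi) :
    (∑ j ∈ range k, ar (r j) (c j) (r (j + 1))) *
      (Real.pi - ∑ j ∈ range k, ang (r j) (r (j + 1)) (c j)) ≤
    (r 0 + r k) * (r 0 + r k - ∑ j ∈ range k, c j) := by
  have hD := fan_dl hT hang hk
  set Dl := r 0 + r k - ∑ j ∈ range k, c j with hDl
  set tau := Real.pi - ∑ j ∈ range k, ang (r j) (r (j + 1)) (c j) with htau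
  have h1 : ∀ j ∈ range k, ar (r j) (c j) (r (j + 1)) * tau ≤ c j * Dl := by
    intro j hj
    rw [Finset.mem_range] at hj
    have h := height_est hT hang hth j hj
    have hc := (hT j hj).py
    have h2 := mul_le_mul_of_nonneg_left h hc.le
    unfold ar
    rw [H57.ang_comm (r j) (c j)]
    rw [← htau, ← hDl] at h2
    nlinarith
  have h2 : (∑ j ∈ range k, ar (r j) (c j) (r (j + 1))) * tau ≤ (∑ j ∈ range k, c j) * Dl := by
    rw [Finset.sum_mul, Finset.sum_mul]
    exact Finset.sum_le_sum h1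
  have h3 : (∑ j ∈ range k, c j) * Dl ≤ (r 0 + r k) * Dl := by
    apply mul_le_mul_of_nonneg_right _ hD
    linarith
  linarith

/-- the area does not change under a flip -/
theorem quad_area {c a1 a2 b1 b2 L : ℝ} (hH : QH c a1 a2 b1 b2) (hL : QL c a1 a2 b1 b2 L) :
    ar c a1 a2 + ar c b1 b2 = ar L a2 b1 + ar L b2 a1 := by
  have ta := hH.ta
  have tb := hH.tb
  have tA := hL.ta
  have tB := hL.tb
  -- areas at v and w
  have e1 : ar L a2 b1 = b1 * a2 * Real.sin (ang b1 a2 L) / 2 := by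
    rw [ar_rot tA, ar_comm]; rfl
  have e2 : ar L b2 a1 = a1 * b2 * Real.sin (ang a1 b2 L) / 2 := by
    rw [ar_rot tB, ar_comm]; rfl
  rw [hL.av, Real.sin_add] at e1
  rw [hL.aw, Real.sin_add] at e2
  -- projections
  have p1 := H57.proj_height ta
  have p2 := H57.proj_height tb
  have p3 : ar c a1 a2 = c * a1 * Real.sin (ang c a1 a2) / 2 := rfl
  have p4 : ar c b1 b2 = c * b1 * Real.sin (ang c b1 b2) / 2 := rfl
  rw [H57.ang_comm b1 c] at e1
  rw [H57.ang_comm a1 c] at e2
  rw [e1, e2, p3, p4]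
  obtain ⟨p1a, p1b⟩ := p1
  obtain ⟨p2a, p2b⟩ := p2
  set sA1 := Real.sin (ang c a1 a2)
  set cA1 := Real.cos (ang c a1 a2)
  set sA2 := Real.sin (ang c a2 a1)
  set cA2 := Real.cos (ang c a2 a1)
  set sB1 := Real.sin (ang c b1 b2)
  set cB1 := Real.cos (ang c b1 b2)
  set sB2 := Real.sin (ang c b2 b1)
  set cB2 := Real.cos (ang c b2 b1)
  -- b1*a2*(sA2*cB1 + cA2*sB1) + a1*b2*(sA1*cB2 + cA1*sB2) = c*a1*sA1 + c*b1*sB1
  have q1 : b1 * a2 * (sA2 * cB1 + cA2 * sB1) = (a1 * sA1) * (b1 * cB1) + (b1 * sB1) * (a2 * cA2) := by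
    linear_combination -(b1 * cB1) * p1b
  have q2 : a1 * b2 * (sA1 * cB2 + cA1 * sB2) = (a1 * sA1) * (b2 * cB2) + (b1 * sB1) * (a1 * cA1) := by
    linear_combination -(a1 * cA1) * p2b
  linear_combination (-1/2) * q1 - (1/2) * q2 - (1/2) * (a1 * sA1) * p2a - (1/2) * (b1 * sB1) * p1a

end Pool.Agent.Acafa7.F.H32
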