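import Pool.Agent.Lib.MP_acafa7_al.F.IfaceG
import Pool.Agent.Lib.MP_acafa7_al.F.H32.Fan

namespace MSG.F32

open Classical Pool.Agent.Acafa7.F.H32

theorem tarea_eq (a b c : ℝ) : tarea a b c = ar a b c := by
  unfold tarea ar; ring

theorem fanarea_st : FanAreaStatement := by
  intro k r c hk hT hang hth
  have h := fan_area hk hT hang hth
  have e : ∑ j ∈ Finset.range k, tarea (r j) (r (j + 1)) (c j)
      = ∑ j ∈ Finset.range k, ar (r j) (c j) (r (j + 1)) := by
    refine Finset.sum_congr rfl fun j hj => ?_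
    rw [Finset.mem_range] at hj
    rw [tarea_eq, ar_swap (hT j hj)]
  rw [e, mul_comm]
  exact h

end MSG.F32
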