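import Pool.Agent.Lib.MP_acafa7_al.F.IfaceC
import Pool.Agent.Lib.MP_acafa7_al.F.H32.Pack

namespace MSG.F32

open Classical Pool.Agent.Acafa7.F.H32

theorem fix_sum (p : ℕ) [Fact p.Prime] {B Y : Type} [Group B] [Fintype B] [Fintype Y]
    [MulAction B Y] (hB : IsPGroup p B) (B' : Subgroup B) (f : Y → ℤ)
    (hf : ∀ b ∈ B', ∀ y, f (b • y) = f y) :
    ((∑ y, (if ∀ b ∈ B', b • y = y then f y else 0) : ℤ) : ZMod p) = ((∑ y, f y : ℤ) : ZMod p) := by
  have hB' : IsPGroup p B' := hB.to_subgroup B'
  have h := sum_fix p hB' (fun y => ((f y : ℤ) : ZMod p)) (fun b y => by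
    have := hf b.1 b.2 y
    change ((f (b.1 • y) : ℤ) : ZMod p) = _
    rw [this])
  rw [Int.cast_sum, Int.cast_sum, h, Finset.sum_filter]
  refine Finset.sum_congr rfl fun y _ => ?_
  have e : (∀ b : B', b • y = y) ↔ (∀ b ∈ B', b • y = y) := by
    constructor
    · intro h b hb; exact h ⟨b, hb⟩
    · intro h b; exact h b.1 b.2
  by_cases h0 : ∀ b ∈ B', b • y = y
  · rw [if_pos h0, if_pos (e.mpr h0)]
  · rw [if_neg h0, if_neg (fun h1 => h0 (e.mp h1))]
    simp

theorem fix_st (_ : PSumStatement) : FixStatement := by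
  intro p hp B Y _ _ _ _ c hB hc B'
  constructor
  · intro N hN P Q hPQ
    have hinv : ∀ b ∈ B', ∀ x y w, N (b • x) (b • y) (b • w) = N x y w := by
      intro b hb x y w
      have h := congrFun (congrFun (congrFun (hN b hb) (b • x)) (b • y)) (b • w)
      simp only [ac2, inv_smul_smul] at h
      exact h.symm
    unfold bd2
    by_cases h0 : c P < c Q
    · rw [if_pos h0, if_pos h0]
      have key := fix_sum p hB B' (fun R => N P Q R - N P R Q + N R P Q) (by
        intro b hb R
        have e1 := hinv b hb P Q R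
        have e2 := hinv b hb P R Q
        have e3 := hinv b hb R P Q
        rw [(hPQ b hb).1, (hPQ b hb).2] at e1 e2 e3
        simp only [e1, e2, e3])
      rw [← key]
      congr 1
      refine Finset.sum_congr rfl fun R _ => ?_
      unfold fx2
      by_cases h1 : ∀ b ∈ B', b • R = R
      · rw [if_pos (fun b hb => ⟨(hPQ b hb).1, (hPQ b hb).2, h1 b hb⟩),
          if_pos (fun b hb => ⟨(hPQ b hb).1, h1 b hb, (hPQ b hb).2⟩),
          if_pos (fun b hb => ⟨h1 b hb, (hPQ b hb).1, (hPQ b hb).2⟩), if_pos h1]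
      · rw [if_neg (fun h => h1 fun b hb => (h b hb).2.2),
          if_neg (fun h => h1 fun b hb => (h b hb).2.1),
          if_neg (fun h => h1 fun b hb => (h b hb).1), if_neg h1]
        ring
    · rw [if_neg h0, if_neg h0]
  · intro ν hν P hP
    have hinv : ∀ b ∈ B', ∀ x y, ν (b • x) (b • y) = ν x y := by
      intro b hb x y
      have h := congrFun (congrFun (hν b hb) (b • x)) (b • y)
      simp only [ac1, inv_smul_smul] at h
      exact h.symm
    unfold bd1
    have key := fix_sum p hB B' (fun R => ν R P - ν P R) (by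
      intro b hb R
      have e1 := hinv b hb P R
      have e2 := hinv b hb R P
      rw [hP b hb] at e1 e2
      simp only [e1, e2])
    rw [← key]
    congr 1
    refine Finset.sum_congr rfl fun R _ => ?_
    unfold fx1
    by_cases h1 : ∀ b ∈ B', b • R = R
    · rw [if_pos (fun b hb => ⟨h1 b hb, hP b hb⟩), if_pos (fun b hb => ⟨hP b hb, h1 b hb⟩), if_pos h1]
    · rw [if_neg (fun h => h1 fun b hb => (h b hb).1),
        if_neg (fun h => h1 fun b hb => (h b hb).2), if_neg h1]
      ring

end MSG.F32
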