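import Pool.Agent.Lib.MP_acafa7_al.F.IfaceC
import Pool.Agent.Lib.MP_acafa7_al.F.H32.Pack

namespace MSG.F32

open Classical Pool.Agent.Acafa7.F.H32

theorem free_st : FreeStatement := by
  intro p hp P _ c z hz hfree hc E ν y hE0 hν0 hE hdE hdν
  have hci : ∀ (i : ℕ) x, c ((z⁻¹ ^ i : Equiv.Perm P) x) = c x := by
    intro i
    induction i with
    | zero => intro x; rfl
    | succ i ih =>
      intro x
      rw [pow_succ, Equiv.Perm.mul_apply, ih, ← hc (z⁻¹ x), ← Equiv.Perm.mul_apply, mul_inv_cancel,
        Equiv.Perm.one_apply]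
  refine free_action p z hz hfree E ν y hE ?_ ?_
  · intro a b
    by_cases h0 : c a < c b
    · have h := hdE a b h0
      have e1 : d2 E a b = ∑ R, (E a b R - E a R b + E R a b) := by
        unfold d2
        rw [Finset.sum_add_distrib, Finset.sum_sub_distrib]
        ring
      rw [e1, h]
      refine Finset.sum_congr rfl fun i _ => ?_
      rw [inv_pow]
      rfl
    · have e1 : d2 E a b = 0 := by
        unfold d2
        have s1 : ∑ R, E R a b = 0 := Finset.sum_eq_zero fun R _ => hE0 _ _ _ (fun h => h0 h.2)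
        have s2 : ∑ R, E a R b = 0 :=
          Finset.sum_eq_zero fun R _ => hE0 _ _ _ (fun h => h0 (h.1.trans h.2))
        have s3 : ∑ R, E a b R = 0 := Finset.sum_eq_zero fun R _ => hE0 _ _ _ (fun h => h0 h.1)
        rw [s1, s2, s3]; ring
      rw [e1]
      symm
      refine Finset.sum_eq_zero fun i _ => hν0 _ _ ?_
      rw [hci, hci]; exact h0
  · intro a
    have h := hdν a
    unfold d1
    rw [← Finset.sum_sub_distrib, h]
    simp only [eq_comm]

end MSG.F32
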