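import Mathlib

open Finset

namespace Pool.Agent.Acafa7.F.H32

/-! Section 4 of PaperF.md: averaging, fixed parts, connectivity, free actions, supports. -/

section Defs
variable {Y R : Type*} [Fintype Y] [CommRing R]

/-- boundary of a 2-chain -/
def d2 (N : Y → Y → Y → R) (a b : Y) : R :=
  (∑ y, N y a b) - (∑ y, N a y b) + ∑ y, N a b y

/-- boundary of a 1-chain -/
def d1 (nu : Y → Y → R) (a : Y) : R := (∑ y, nu y a) - ∑ y, nu a y

theorem d1_d2 (N : Y → Y → Y → R) (a : Y) : d1 (d2 N) a = 0 := by
  unfold d1 d2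
  simp only [Finset.sum_add_distrib, Finset.sum_sub_distrib]
  have h1 : ∑ x, ∑ y, N y x a = ∑ x, ∑ y, N x y a := Finset.sum_comm
  have h2 : ∑ x, ∑ y, N y a x = ∑ x, ∑ y, N x a y := Finset.sum_comm
  have h3 : ∑ x, ∑ y, N a y x = ∑ x, ∑ y, N a x y := Finset.sum_comm
  rw [h1, h2, h3]; ring

theorem sum_d1 (nu : Y → Y → R) : ∑ a, d1 nu a = 0 := by
  unfold d1
  rw [Finset.sum_sub_distrib, Finset.sum_comm, sub_self]

end Defs

/-! ### 4.1 averaging -/
section AVG
variable {B X : Type*} [Group B] [Fintype B] [MulAction B X]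

/-- the averaged chain -/
def av (D : B → X → ℤ) (x : X) : ℤ := (∑ b, D b x) / (Fintype.card B : ℤ)

theorem avg (D : B → X → ℤ) (hD : ∀ b b' x, D (b * b') x = D b x + D b' (b⁻¹ • x)) (b : B) (x : X) :
    av D x - av D (b⁻¹ • x) = D b x := by
  have hc : (0 : ℤ) < (Fintype.card B : ℤ) := by exact_mod_cast Fintype.card_pos
  have h : ∑ b', D b' x = ∑ b', D b' (b⁻¹ • x) + (Fintype.card B : ℤ) * D b x := by
    have h1 : ∑ b', D b' x = ∑ b', D (b * b') x :=
      (Fintype.sum_equiv (Equiv.mulLeft b) (fun b' => D (b * b') x) (fun b' => D b' x)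
        (fun b' => rfl)).symm
    rw [h1]
    simp only [hD, Finset.sum_add_distrib, Finset.sum_const, Finset.card_univ, nsmul_eq_mul]
    ring
  unfold av
  rw [h, Int.add_mul_ediv_left _ _ hc.ne']
  ring

theorem coc_one (D : B → X → ℤ) (hD : ∀ b b' x, D (b * b') x = D b x + D b' (b⁻¹ • x)) (x : X) :
    D 1 x = 0 := by
  have h := hD 1 1 x
  simp only [mul_one, inv_one, one_smul] at h
  linarith

/-- 4.5: if the average is nonzero somewhere on an invariant set Z, at least half of the
`D b` are nonzero somewhere on Z. -/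
theorem half_support (D : B → X → ℤ) (hD : ∀ b b' x, D (b * b') x = D b x + D b' (b⁻¹ • x))
    (Z : Set X) (hZ : ∀ (b : B), ∀ x ∈ Z, b • x ∈ Z) (x : X) (hx : x ∈ Z) (hav : av D x ≠ 0) :
    ∃ T : Finset B, Fintype.card B ≤ 2 * T.card ∧ ∀ b ∈ T, ∃ z ∈ Z, D b z ≠ 0 := by
  classical
  let Q : Subgroup B :=
    { carrier := {b | ∀ z ∈ Z, D b z = 0}
      one_mem' := fun z _ => coc_one D hD z
      mul_mem' := by
        intro a b ha hb z hz
        rw [hD, ha z hz, hb _ (hZ _ z hz), add_zero]
      inv_mem' := by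
        intro a ha z hz
        have h := hD a a⁻¹ (a • z)
        simp only [mul_inv_cancel, inv_smul_smul] at h
        rw [coc_one D hD, ha _ (hZ _ z hz), zero_add] at h
        exact h.symm }
  have hQ : Q ≠ ⊤ := by
    intro h
    apply hav
    have : ∀ b : B, D b x = 0 := by
      intro b
      have hb : b ∈ Q := by rw [h]; exact Subgroup.mem_top b
      exact hb x hx
    unfold av
    simp [this]
  refine ⟨univ.filter (fun b => b ∉ Q), ?_, ?_⟩
  · have h1 : (univ.filter (fun b => b ∈ Q)).card + (univ.filter (fun b => b ∉ Q)).card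
        = Fintype.card B := by
      rw [Finset.card_filter_add_card_filter_not]; rfl
    have h2 : (univ.filter (fun b => b ∈ Q)).card = Nat.card Q := by
      rw [Nat.card_eq_fintype_card, Fintype.card_subtype]
    have h3 : 2 * Nat.card Q ≤ Nat.card B := by
      have h4 := Q.card_mul_index
      have h5 : 2 ≤ Q.index := by
        have h6 : Q.index ≠ 1 := fun h => hQ (Subgroup.index_eq_one.mp h)
        have h7 : Q.index ≠ 0 := Subgroup.index_ne_zero_of_finite
        omega
      calc 2 * Nat.card Q = Nat.card Q * 2 := by ring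
        _ ≤ Nat.card Q * Q.index := Nat.mul_le_mul_left _ h5
        _ = Nat.card B := h4
    rw [Nat.card_eq_fintype_card (α := B)] at h3
    omega
  · intro b hb
    rw [Finset.mem_filter] at hb
    by_contra hcon
    refine hb.2 (fun z hz => ?_)
    by_contra h0
    exact hcon ⟨z, hz, h0⟩

end AVG

/-! ### 4.2 fixed parts -/
section FIX
variable {B Y : Type*} [Group B] [MulAction B Y] [Fintype Y]

open Classical in
theorem sum_fix (p : ℕ) [Fact p.Prime] (hB : IsPGroup p B) (f : Y → ZMod p)
    (hf : ∀ (b : B) y, f (b • y) = f y) :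
    ∑ y, f y = ∑ y ∈ univ.filter (fun y => ∀ b : B, b • y = y), f y := by
  have key : ∀ v : ZMod p, ((univ.filter (fun y => f y = v)).card : ZMod p)
      = (((univ.filter (fun y => ∀ b : B, b • y = y)).filter (fun y => f y = v)).card : ZMod p) := by
    intro v
    let W : SubMulAction B Y :=
      { carrier := {y | f y = v}
        smul_mem' := by
          intro b y hy
          change f y = v at hy; change f (b • y) = v
          rw [hf, hy] }
    have h := hB.card_modEq_card_fixedPoints (α := W)
    have h1 : Nat.card W = (univ.filter (fun y => f y = v)).card := by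
      have e : W ≃ {y // y ∈ univ.filter (fun y => f y = v)} :=
        { toFun := fun w => ⟨w.1, Finset.mem_filter.mpr ⟨Finset.mem_univ _, w.2⟩⟩
          invFun := fun y => ⟨y.1, (Finset.mem_filter.mp y.2).2⟩
          left_inv := fun w => rfl
          right_inv := fun y => rfl }
      rw [Nat.card_congr e, Nat.card_eq_fintype_card, Fintype.card_coe]
    have h2 : Nat.card (MulAction.fixedPoints B W)
        = ((univ.filter (fun y => ∀ b : B, b • y = y)).filter (fun y => f y = v)).card := by
      rw [Nat.card_eq_fintype_card]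
      have e : (MulAction.fixedPoints B W) ≃
          {y // y ∈ (univ.filter (fun y => ∀ b : B, b • y = y)).filter (fun y => f y = v)} :=
        { toFun := fun w => ⟨w.1.1, by
            simp only [Finset.mem_filter, Finset.mem_univ, true_and]
            exact ⟨fun b => congrArg Subtype.val (w.2 b), w.1.2⟩⟩
          invFun := fun y => ⟨⟨y.1, (Finset.mem_filter.mp y.2).2⟩, fun b => by
            apply Subtype.ext
            exact (Finset.mem_filter.mp (Finset.mem_filter.mp y.2).1).2 b⟩
          left_inv := fun w => rfl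
          right_inv := fun y => rfl }
      rw [Fintype.card_congr e, Fintype.card_coe]
    rw [h1, h2] at h
    exact (ZMod.natCast_eq_natCast_iff _ _ _).mpr h
  have hs : ∀ s : Finset Y, ∑ y ∈ s, f y = ∑ v : ZMod p, ((s.filter (fun y => f y = v)).card : ZMod p) * v := by
    intro s
    rw [← Finset.sum_fiberwise_of_maps_to (s := s) (t := univ) (g := f) (fun _ _ => Finset.mem_univ _)]
    refine Finset.sum_congr rfl fun v _ => ?_
    rw [Finset.sum_congr rfl (g := fun _ => v) (fun y hy => (Finset.mem_filter.mp hy).2)]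
    rw [Finset.sum_const, nsmul_eq_mul]
  rw [hs univ, hs]
  exact Finset.sum_congr rfl fun v _ => by rw [key v]

end FIX

/-! ### 4.2, 4.3: chains and fixed parts -/
section CONN
variable {B Y : Type*} [Group B] [MulAction B Y] [Fintype Y]

open Classical in
/-- the part of a 2-chain on the fixed vertices, mod p -/
noncomputable def fix2 (B : Type*) {Y : Type*} [Group B] [MulAction B Y] (p : ℕ)
    (N : Y → Y → Y → ℤ) (x y z : Y) : ZMod p :=
  if (∀ b : B, b • x = x) ∧ (∀ b : B, b • y = y) ∧ (∀ b : B, b • z = z) then (N x y z : ZMod p) else 0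

open Classical in
/-- the part of a 1-chain on the fixed vertices, mod p -/
noncomputable def fix1 (B : Type*) {Y : Type*} [Group B] [MulAction B Y] (p : ℕ)
    (nu : Y → Y → ℤ) (x y : Y) : ZMod p :=
  if (∀ b : B, b • x = x) ∧ (∀ b : B, b • y = y) then (nu x y : ZMod p) else 0

theorem d1_fix (p : ℕ) [Fact p.Prime] (hB : IsPGroup p B) (nu : Y → Y → ℤ)
    (hinv : ∀ (b : B) x y, nu (b • x) (b • y) = nu x y) (a : Y) (ha : ∀ b : B, b • a = a) :
    d1 (fix1 B p nu) a = ((d1 nu a : ℤ) : ZMod p) := by
  classical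
  unfold d1
  have h1 : (((∑ y, nu y a) : ℤ) : ZMod p) = ∑ y, fix1 B p nu y a := by
    push_cast
    rw [sum_fix p hB (fun y => ((nu y a : ℤ) : ZMod p)) (fun b y => by
      have := hinv b y a
      rw [ha] at this
      rw [this])]
    rw [Finset.sum_filter]
    refine Finset.sum_congr rfl fun y _ => ?_
    unfold fix1
    simp [ha]
  have h2 : (((∑ y, nu a y) : ℤ) : ZMod p) = ∑ y, fix1 B p nu a y := by
    push_cast
    rw [sum_fix p hB (fun y => ((nu a y : ℤ) : ZMod p)) (fun b y => by
      have := hinv b a y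
      rw [ha] at this
      rw [this])]
    rw [Finset.sum_filter]
    refine Finset.sum_congr rfl fun y _ => ?_
    unfold fix1
    simp [ha]
  rw [Int.cast_sub, h1, h2]

theorem d2_fix (p : ℕ) [Fact p.Prime] (hB : IsPGroup p B) (N : Y → Y → Y → ℤ)
    (hinv : ∀ (b : B) x y z, N (b • x) (b • y) (b • z) = N x y z) (a c : Y)
    (ha : ∀ b : B, b • a = a) (hc : ∀ b : B, b • c = c) :
    d2 (fix2 B p N) a c = ((d2 N a c : ℤ) : ZMod p) := by
  classical
  unfold d2
  have h1 : (((∑ y, N y a c) : ℤ) : ZMod p) = ∑ y, fix2 B p N y a c := by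
    push_cast
    rw [sum_fix p hB (fun y => ((N y a c : ℤ) : ZMod p)) (fun b y => by
      have := hinv b y a c
      rw [ha, hc] at this
      rw [this])]
    rw [Finset.sum_filter]
    refine Finset.sum_congr rfl fun y _ => ?_
    unfold fix2
    simp [ha, hc]
  have h2 : (((∑ y, N a y c) : ℤ) : ZMod p) = ∑ y, fix2 B p N a y c := by
    push_cast
    rw [sum_fix p hB (fun y => ((N a y c : ℤ) : ZMod p)) (fun b y => by
      have := hinv b a y c
      rw [ha, hc] at this
      rw [this])]
    rw [Finset.sum_filter]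
    refine Finset.sum_congr rfl fun y _ => ?_
    unfold fix2
    simp [ha, hc]
  have h3 : (((∑ y, N a c y) : ℤ) : ZMod p) = ∑ y, fix2 B p N a c y := by
    push_cast
    rw [sum_fix p hB (fun y => ((N a c y : ℤ) : ZMod p)) (fun b y => by
      have := hinv b a c y
      rw [ha, hc] at this
      rw [this])]
    rw [Finset.sum_filter]
    refine Finset.sum_congr rfl fun y _ => ?_
    unfold fix2
    simp [ha, hc]
  rw [Int.cast_add, Int.cast_sub, h1, h2, h3]

/-- 4.3 -/
theorem conn [DecidableEq Y] (p : ℕ) [Fact p.Prime] (hB : IsPGroup p B) (nu : Y → Y → ℤ)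
    (hinv : ∀ (b : B) x y, nu (b • x) (b • y) = nu x y) (y y' : Y)
    (hy : ∀ b : B, b • y = y) (hy' : ∀ b : B, b • y' = y')
    (hd : ∀ a, d1 nu a = (if a = y' then 1 else 0) - (if a = y then 1 else 0)) :
    Relation.ReflTransGen (fun a c => (∀ b : B, b • a = a) ∧ (∀ b : B, b • c = c) ∧
      (((nu a c : ℤ) : ZMod p) ≠ 0 ∨ ((nu c a : ℤ) : ZMod p) ≠ 0)) y y' := by
  classical
  set r : Y → Y → Prop := fun a c => (∀ b : B, b • a = a) ∧ (∀ b : B, b • c = c) ∧
      (((nu a c : ℤ) : ZMod p) ≠ 0 ∨ ((nu c a : ℤ) : ZMod p) ≠ 0) with hr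
  by_contra hcon
  have hfix : ∀ a, Relation.ReflTransGen r y a → ∀ b : B, b • a = a := by
    intro a h
    induction h with
    | refl => exact hy
    | tail _ h2 _ => exact h2.2.1
  set K : Finset Y := univ.filter (fun a => Relation.ReflTransGen r y a) with hK
  have hKm : ∀ a, a ∈ K ↔ Relation.ReflTransGen r y a := by
    intro a; rw [hK, Finset.mem_filter]; simp
  -- outside K, the mod p values vanish
  have hout : ∀ a ∈ K, ∀ x, x ∉ K → fix1 B p nu x a = 0 ∧ fix1 B p nu a x = 0 := by
    intro a ha x hx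
    rw [hKm] at ha hx
    unfold fix1
    constructor
    · split_ifs with h
      · by_contra h0
        exact hx (ha.tail ⟨h.2, h.1, Or.inr h0⟩)
      · rfl
    · split_ifs with h
      · by_contra h0
        exact hx (ha.tail ⟨h.1, h.2, Or.inl h0⟩)
      · rfl
  have hsum : ∑ a ∈ K, d1 (fix1 B p nu) a = 0 := by
    unfold d1
    rw [Finset.sum_sub_distrib]
    have e1 : ∑ a ∈ K, ∑ x, fix1 B p nu x a = ∑ a ∈ K, ∑ x ∈ K, fix1 B p nu x a := by
      refine Finset.sum_congr rfl fun a ha => ?_
      symm
      exact Finset.sum_subset (Finset.subset_univ _) (fun x _ hx => (hout a ha x hx).1)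
    have e2 : ∑ a ∈ K, ∑ x, fix1 B p nu a x = ∑ a ∈ K, ∑ x ∈ K, fix1 B p nu a x := by
      refine Finset.sum_congr rfl fun a ha => ?_
      symm
      exact Finset.sum_subset (Finset.subset_univ _) (fun x _ hx => (hout a ha x hx).2)
    rw [e1, e2, Finset.sum_comm, sub_self]
  have hval : ∑ a ∈ K, d1 (fix1 B p nu) a = -1 := by
    have e : ∀ a ∈ K, d1 (fix1 B p nu) a = if a = y then (-1 : ZMod p) else 0 := by
      intro a ha
      rw [hKm] at ha
      rw [d1_fix p hB nu hinv a (hfix a ha), hd]
      have : a ≠ y' := fun h => hcon (h ▸ ha)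
      rw [if_neg this]
      split_ifs <;> simp
    rw [Finset.sum_congr rfl e, Finset.sum_ite_eq' K y]
    rw [if_pos ((hKm y).mpr Relation.ReflTransGen.refl)]
  rw [hsum] at hval
  have : (1 : ZMod p) = 0 := by
    have := congrArg Neg.neg hval
    simpa using this.symm
  exact one_ne_zero this

end CONN

end Pool.Agent.Acafa7.F.H32
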