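import Pool.Agent.Lib.MP_acafa7_al.F.IfaceC
import Pool.Agent.Lib.MP_acafa7_al.F.H32.Pack

namespace MSG.F32

open Classical Pool.Agent.Acafa7.F.H32

theorem bd1_eq {Y : Type} [Fintype Y] (ν : Ch1 Y) : bd1 ν = d1 ν := by
  funext P
  unfold bd1 d1
  rw [Finset.sum_sub_distrib]

theorem chain_of_rtg {Y : Type} {r : Y → Y → Prop} {a b : Y} (h : Relation.ReflTransGen r a b) :
    ∃ (l : ℕ) (v : ℕ → Y), v 0 = a ∧ v l = b ∧ ∀ i, i < l → r (v i) (v (i + 1)) := by
  induction h with
  | refl => exact ⟨0, fun _ => a, rfl, rfl, fun i hi => absurd hi (Nat.not_lt_zero _)⟩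
  | @tail b c _ h2 ih =>
    obtain ⟨l, v, h0, h1, h3⟩ := ih
    refine ⟨l + 1, fun i => if i ≤ l then v i else c, ?_, ?_, ?_⟩
    · simp [h0]
    · simp
    · intro i hi
      by_cases h4 : i < l
      · have e1 : i ≤ l := by omega
        have e2 : i + 1 ≤ l := by omega
        simp only [e1, e2, if_true]
        exact h3 i h4
      · have e0 : i = l := by omega
        subst e0
        have e2 : ¬ (i + 1 ≤ i) := by omega
        simp only [le_refl, if_true, e2, if_false, h1]
        exact h2

theorem connp_st (_ : PSumStatement) : ConnPStatement := by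
  intro p hp B Y _ _ _ _ hB ν y₀ y₁ hν hy0 hy1 hd
  have hinv : ∀ (b : B) x y, ν (b • x) (b • y) = ν x y := by
    intro b x y
    have h := congrFun (congrFun (hν b) (b • x)) (b • y)
    simp only [ac1, inv_smul_smul] at h
    exact h.symm
  have h := conn p hB ν hinv y₀ y₁ hy0 hy1 (fun a => by
    rw [← bd1_eq, hd]
    simp only [kr, eq_comm])
  obtain ⟨l, v, h0, h1, h3⟩ := chain_of_rtg h
  refine ⟨l, v, h0, h1, ?_, ?_⟩
  · intro i hi
    rcases Nat.lt_or_ge i l with h4 | h4
    · exact (h3 i h4).1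
    · have : i = l := by omega
      rw [this, h1]; exact hy1
  · intro i hi
    rcases (h3 i hi).2.2 with h4 | h4
    · left; intro h5; apply h4; rw [h5]; simp
    · right; intro h5; apply h4; rw [h5]; simp

end MSG.F32
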