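import Pool.Agent.Lib.MP_acafa7_al.F.H32.Alg

open Finset

namespace Pool.Agent.Acafa7.F.H32

/-! ### 4.4 free actions of a group of prime order -/

section FREE
variable {P : Type*}

theorem iter_inj (p : ℕ) [hp : Fact p.Prime] (z : P → P) (hz : ∀ x, z^[p] x = x)
    (hfree : ∀ x, z x ≠ x) (x : P) (i j : ℕ) (hi : i < p) (hj : j < p)
    (h : z^[i] x = z^[j] x) : i = j := by
  have h1 : Function.minimalPeriod z x ∣ p :=
    Function.IsPeriodicPt.minimalPeriod_dvd (hz x)
  have h2 : Function.minimalPeriod z x = p := by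
    rcases (Nat.dvd_prime hp.out).mp h1 with h3 | h3
    · exact absurd (Function.minimalPeriod_eq_one_iff_isFixedPt.mp h3) (hfree x)
    · exact h3
  exact Function.iterate_injOn_Iio_minimalPeriod (by simpa [h2] using hi) (by simpa [h2] using hj) h

/-- a transversal of the free action, as an indicator function -/
theorem exists_chi (p : ℕ) [hp : Fact p.Prime] (z : P → P) (hz : ∀ x, z^[p] x = x)
    (hfree : ∀ x, z x ≠ x) {R : Type*} [CommRing R] :
    ∃ chi : P → R, ∀ x, ∑ i ∈ range p, chi (z^[i] x) = 1 := by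
  classical
  -- the orbit relation
  let r : Setoid P :=
    { r := fun x y => ∃ i, z^[i] x = y
      iseqv :=
        { refl := fun x => ⟨0, rfl⟩
          symm := by
            rintro x y ⟨i, rfl⟩
            refine ⟨p * i - i, ?_⟩
            have : i ≤ p * i := Nat.le_mul_of_pos_left _ hp.out.pos
            rw [← Function.iterate_add_apply, Nat.sub_add_cancel this, Function.iterate_mul]
            exact Function.iterate_fixed (hz x) i
          trans := by
            rintro x y w ⟨i, rfl⟩ ⟨j, rfl⟩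
            exact ⟨j + i, Function.iterate_add_apply _ _ _ _⟩ } }
  let out : P → P := fun x => (Quotient.mk r x).out
  have hout : ∀ x, ∃ i, z^[i] x = out x := by
    intro x
    have h : r.r (Quotient.mk r x).out x := Quotient.exact (Quotient.out_eq _)
    exact r.iseqv.symm h
  have hout2 : ∀ x i, out (z^[i] x) = out x := by
    intro x i
    have : Quotient.mk r (z^[i] x) = Quotient.mk r x :=
      Quotient.sound (r.iseqv.symm ⟨i, rfl⟩)
    change (Quotient.mk r (z^[i] x)).out = _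
    rw [this]
  refine ⟨fun x => if out x = x then 1 else 0, fun x => ?_⟩
  obtain ⟨k, hk⟩ := hout x
  have hk2 : z^[k % p] x = out x := by
    rw [← hk]
    conv_rhs => rw [← Nat.mod_add_div k p, Function.iterate_add_apply, Function.iterate_mul]
    congr 1
    exact (Function.iterate_fixed (hz x) _).symm
  have hlt : k % p < p := Nat.mod_lt _ hp.out.pos
  rw [Finset.sum_eq_single_of_mem (k % p) (Finset.mem_range.mpr hlt)]
  · change (if out (z^[k % p] x) = z^[k % p] x then (1 : R) else 0) = 1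
    rw [hout2, hk2, if_pos rfl]
  · intro j hj hne
    rw [Finset.mem_range] at hj
    change (if out (z^[j] x) = z^[j] x then (1 : R) else 0) = 0
    rw [hout2, if_neg]
    intro h
    exact hne (iter_inj p z hz hfree x _ _ hj hlt (by rw [hk2, h]))

/-- exactness: a function of norm zero is a difference -/
theorem norm_zero {X R : Type*} [CommRing R] (p : ℕ) (z : Equiv.Perm X)
    (chi : X → R) (hchi : ∀ x, ∑ i ∈ range p, chi ((z⁻¹ ^ i : Equiv.Perm X) x) = 1)
    (l : X → R) (hl : ∀ x, ∑ i ∈ range p, l ((z⁻¹ ^ i : Equiv.Perm X) x) = 0) :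
    ∃ k : X → R, ∀ x, l x = k x - k (z⁻¹ x) := by
  -- the norm with positive powers
  have hl2 : ∀ x, ∑ i ∈ range p, l ((z ^ i : Equiv.Perm X) x) = 0 := by
    intro x
    have h := hl ((z ^ (p - 1) : Equiv.Perm X) x)
    have e : ∀ i ∈ range p, l ((z⁻¹ ^ i : Equiv.Perm X) ((z ^ (p - 1) : Equiv.Perm X) x))
        = l ((z ^ (p - 1 - i) : Equiv.Perm X) x) := by
      intro i hi
      rw [Finset.mem_range] at hi
      have e1 : z ^ (p - 1) = z ^ i * z ^ (p - 1 - i) := by
        rw [← pow_add]; congr 1; omega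
      rw [e1, ← Equiv.Perm.mul_apply, ← mul_assoc, inv_pow, inv_mul_cancel, one_mul]
    rw [Finset.sum_congr rfl e] at h
    rw [Finset.sum_range_reflect (fun i => l ((z ^ i : Equiv.Perm X) x))] at h
    exact h
  let g : ℕ → X → R := fun i x => chi x * l ((z ^ i : Equiv.Perm X) x)
  refine ⟨fun x => - ∑ i ∈ range p, ∑ j ∈ range i, g i ((z⁻¹ ^ j : Equiv.Perm X) x), fun x => ?_⟩
  have h1 : ∀ i, ∑ j ∈ range i, g i ((z⁻¹ ^ j : Equiv.Perm X) x)
      - ∑ j ∈ range i, g i ((z⁻¹ ^ j : Equiv.Perm X) (z⁻¹ x))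
      = g i x - g i ((z⁻¹ ^ i : Equiv.Perm X) x) := by
    intro i
    have : ∀ j, g i ((z⁻¹ ^ j : Equiv.Perm X) (z⁻¹ x)) = g i ((z⁻¹ ^ (j + 1) : Equiv.Perm X) x) := by
      intro j
      rw [pow_succ, Equiv.Perm.mul_apply]
    simp only [this]
    rw [← Finset.sum_sub_distrib]
    have h := Finset.sum_range_sub' (fun j => g i ((z⁻¹ ^ j : Equiv.Perm X) x)) i
    rw [h]
    simp
  have h2 : ∀ i, g i ((z⁻¹ ^ i : Equiv.Perm X) x) = chi ((z⁻¹ ^ i : Equiv.Perm X) x) * l x := by
    intro i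
    change chi _ * l ((z ^ i : Equiv.Perm X) ((z⁻¹ ^ i : Equiv.Perm X) x)) = _
    rw [← Equiv.Perm.mul_apply, inv_pow, mul_inv_cancel, Equiv.Perm.one_apply]
  have h3 : ∑ i ∈ range p, g i x = 0 := by
    change ∑ i ∈ range p, chi x * l ((z ^ i : Equiv.Perm X) x) = 0
    rw [← Finset.mul_sum, hl2, mul_zero]
  have h4 : ∑ i ∈ range p, g i ((z⁻¹ ^ i : Equiv.Perm X) x) = l x := by
    simp only [h2]
    rw [← Finset.sum_mul, hchi, one_mul]
  have h5 : ∑ i ∈ range p, (∑ j ∈ range i, g i ((z⁻¹ ^ j : Equiv.Perm X) x)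
      - ∑ j ∈ range i, g i ((z⁻¹ ^ j : Equiv.Perm X) (z⁻¹ x))) = - l x := by
    simp only [h1]
    rw [Finset.sum_sub_distrib, h3, h4, zero_sub]
  rw [Finset.sum_sub_distrib] at h5
  linear_combination h5

variable [Fintype P]

theorem d1_add {R : Type*} [CommRing R] (f g : P → P → R) (a : P) :
    d1 (fun x y => f x y + g x y) a = d1 f a + d1 g a := by
  unfold d1; rw [Finset.sum_add_distrib, Finset.sum_add_distrib]; ring

theorem d1_sub {R : Type*} [CommRing R] (f g : P → P → R) (a : P) :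
    d1 (fun x y => f x y - g x y) a = d1 f a - d1 g a := by
  unfold d1; rw [Finset.sum_sub_distrib, Finset.sum_sub_distrib]; ring

theorem d1_sum {R ι : Type*} [CommRing R] (s : Finset ι) (f : ι → P → P → R) (a : P) :
    d1 (fun x y => ∑ i ∈ s, f i x y) a = ∑ i ∈ s, d1 (f i) a := by
  unfold d1
  rw [Finset.sum_comm, Finset.sum_comm (s := univ) (t := s) (f := fun y i => f i a y),
    Finset.sum_sub_distrib]

theorem d2_sub {R : Type*} [CommRing R] (f g : P → P → P → R) (a b : P) :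
    d2 (fun x y w => f x y w - g x y w) a b = d2 f a b - d2 g a b := by
  unfold d2; simp only [Finset.sum_sub_distrib]; ring

theorem d2_sum {R ι : Type*} [CommRing R] (s : Finset ι) (f : ι → P → P → P → R) (a b : P) :
    d2 (fun x y w => ∑ i ∈ s, f i x y w) a b = ∑ i ∈ s, d2 (f i) a b := by
  unfold d2
  rw [Finset.sum_comm, Finset.sum_comm (s := univ) (t := s) (f := fun y i => f i a y b),
    Finset.sum_comm (s := univ) (t := s) (f := fun y i => f i a b y),
    Finset.sum_add_distrib, Finset.sum_sub_distrib]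

theorem d1_perm {R : Type*} [CommRing R] (e : Equiv.Perm P) (f : P → P → R) (a : P) :
    d1 (fun x y => f (e x) (e y)) a = d1 f (e a) := by
  unfold d1
  rw [Equiv.sum_comp e (fun x => f x (e a)), Equiv.sum_comp e (fun x => f (e a) x)]

theorem d2_perm {R : Type*} [CommRing R] (e : Equiv.Perm P) (f : P → P → P → R) (a b : P) :
    d2 (fun x y w => f (e x) (e y) (e w)) a b = d2 f (e a) (e b) := by
  unfold d2
  rw [Equiv.sum_comp e (fun x => f x (e a) (e b)), Equiv.sum_comp e (fun x => f (e a) x (e b)),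
    Equiv.sum_comp e (fun x => f (e a) (e b) x)]

/-- 4.4 -/
theorem free_action [DecidableEq P] (p : ℕ) [hp : Fact p.Prime] (z : Equiv.Perm P) (hz : z ^ p = 1)
    (hfree : ∀ x, z x ≠ x) (E : P → P → P → ZMod p) (nu : P → P → ZMod p) (y : P)
    (hE : ∀ a b c, E (z a) (z b) (z c) = E a b c)
    (hdE : ∀ a b, d2 E a b = ∑ i ∈ range p, nu ((z⁻¹ ^ i : Equiv.Perm P) a) ((z⁻¹ ^ i : Equiv.Perm P) b))
    (hnu : ∀ a, d1 nu a = (if a = z y then 1 else 0) - (if a = y then 1 else 0)) : False := by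
  have hfix : ∀ x, z⁻¹ x ≠ x := by
    intro x h
    apply hfree x
    conv_lhs => rw [← h]
    rw [← Equiv.Perm.mul_apply, mul_inv_cancel, Equiv.Perm.one_apply]
  have hit : ∀ x, (⇑(z⁻¹))^[p] x = x := fun x => by
    rw [Equiv.Perm.iterate_eq_pow, inv_pow, hz, inv_one, Equiv.Perm.one_apply]
  obtain ⟨chi, hchi0⟩ := exists_chi (R := ZMod p) p (⇑(z⁻¹)) hit hfix
  have hchi : ∀ x, ∑ i ∈ range p, chi ((z⁻¹ ^ i : Equiv.Perm P) x) = 1 := by
    intro x
    rw [← hchi0 x]
    refine Finset.sum_congr rfl fun i _ => ?_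
    rw [Equiv.Perm.iterate_eq_pow]
  have hE' : ∀ i : ℕ, ∀ a b c, E ((z⁻¹ ^ i : Equiv.Perm P) a) ((z⁻¹ ^ i : Equiv.Perm P) b)
      ((z⁻¹ ^ i : Equiv.Perm P) c) = E a b c := by
    intro i
    induction i with
    | zero => intro a b c; rfl
    | succ i ih =>
      intro a b c
      rw [pow_succ, Equiv.Perm.mul_apply, Equiv.Perm.mul_apply, Equiv.Perm.mul_apply, ih,
        ← hE (z⁻¹ a)]
      simp only [← Equiv.Perm.mul_apply, mul_inv_cancel, Equiv.Perm.one_apply]
  -- E0
  let E0 : P → P → P → ZMod p := fun a b c => chi a * E a b c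
  have hN : ∀ a b, ∑ i ∈ range p, d2 E0 ((z⁻¹ ^ i : Equiv.Perm P) a) ((z⁻¹ ^ i : Equiv.Perm P) b)
      = d2 E a b := by
    intro a b
    have h : ∀ i, d2 E0 ((z⁻¹ ^ i : Equiv.Perm P) a) ((z⁻¹ ^ i : Equiv.Perm P) b)
      = d2 (fun x y w => chi ((z⁻¹ ^ i : Equiv.Perm P) x) * E x y w) a b := by
      intro i
      rw [← d2_perm]
      congr 1
      funext x y w
      change chi _ * E _ _ _ = _
      rw [hE']
    simp only [h]
    rw [← d2_sum]
    congr 1
    funext x y w
    rw [← Finset.sum_mul, hchi, one_mul]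
  let L : P × P → ZMod p := fun q => nu q.1 q.2 - d2 E0 q.1 q.2
  let Z : Equiv.Perm (P × P) := Equiv.prodCongr z z
  have hZi : ∀ i : ℕ, ∀ q, (Z⁻¹ ^ i : Equiv.Perm (P × P)) q
      = ((z⁻¹ ^ i : Equiv.Perm P) q.1, (z⁻¹ ^ i : Equiv.Perm P) q.2) := by
    intro i
    induction i with
    | zero => intro q; rfl
    | succ i ih =>
      intro q
      rw [pow_succ, Equiv.Perm.mul_apply, ih, pow_succ]
      rfl
  obtain ⟨k, hk⟩ := norm_zero p Z (fun q => chi q.1) (fun q => by
      simp only [hZi]; exact hchi q.1) L (fun q => by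
      change ∑ i ∈ range p, (nu _ _ - d2 E0 _ _) = 0
      simp only [hZi]
      rw [Finset.sum_sub_distrib, hN, hdE, sub_self])
  let kk : P → P → ZMod p := fun a b => k (a, b)
  have hkk : ∀ a, d1 kk a - d1 kk (z⁻¹ a) = d1 nu a := by
    intro a
    rw [← d1_perm, ← d1_sub]
    have : (fun x y => kk x y - kk (z⁻¹ x) (z⁻¹ y)) = fun x y => nu x y - d2 E0 x y := by
      funext x y
      exact (hk (x, y)).symm
    rw [this, d1_sub]
    have h0 : d1 (fun x y => d2 E0 x y) a = 0 := d1_d2 E0 a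
    rw [h0, sub_zero]
  let g : P → ZMod p := fun a => (if a = y then 1 else 0) + d1 kk a
  have hg1 : ∀ a, g (z⁻¹ a) = g a := by
    intro a
    have h1 := hkk a
    rw [hnu] at h1
    have h2 : (if z⁻¹ a = y then (1 : ZMod p) else 0) = if a = z y then 1 else 0 := by
      have : z⁻¹ a = y ↔ a = z y := by
        rw [Equiv.Perm.inv_eq_iff_eq]
      simp only [this]
    change (if z⁻¹ a = y then (1 : ZMod p) else 0) + d1 kk (z⁻¹ a) = (if a = y then 1 else 0) + d1 kk a
    rw [h2]
    linear_combination -h1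
  have hg : ∀ i : ℕ, ∀ a, g ((z⁻¹ ^ i : Equiv.Perm P) a) = g a := by
    intro i
    induction i with
    | zero => intro a; rfl
    | succ i ih => intro a; rw [pow_succ, Equiv.Perm.mul_apply, ih, hg1]
  have hs1 : ∑ a, g a = 1 := by
    change ∑ a, ((if a = y then (1 : ZMod p) else 0) + d1 kk a) = 1
    rw [Finset.sum_add_distrib, sum_d1, add_zero, Finset.sum_ite_eq' univ y]
    simp
  have hs2 : ∑ a, g a = 0 := by
    have h : ∀ a, g a = ∑ i ∈ range p, chi ((z⁻¹ ^ i : Equiv.Perm P) a) * g ((z⁻¹ ^ i : Equiv.Perm P) a) := by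
      intro a
      simp only [hg]
      rw [← Finset.sum_mul, hchi, one_mul]
    rw [Finset.sum_congr rfl (fun a _ => h a), Finset.sum_comm]
    have h2 : ∀ i : ℕ, ∑ a, chi ((z⁻¹ ^ i : Equiv.Perm P) a) * g ((z⁻¹ ^ i : Equiv.Perm P) a)
        = ∑ a, chi a * g a := fun i => Equiv.sum_comp (z⁻¹ ^ i : Equiv.Perm P) (fun a => chi a * g a)
    simp only [h2, Finset.sum_const, Finset.card_range, nsmul_eq_mul, CharP.cast_eq_zero, zero_mul]
  rw [hs1] at hs2
  exact one_ne_zero hs2

end FREE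

end Pool.Agent.Acafa7.F.H32
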