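import Pool.Agent.Lib.MP_acafa7_al.F.IfaceC
import Pool.Agent.Lib.MP_acafa7_al.F.H32.Pack

namespace MSG.F32

open Classical Pool.Agent.Acafa7.F.H32

theorem psum_st : PSumStatement := by
  intro p hp H X _ _ _ _ hH f hf
  have h := sum_fix p hH f hf
  convert h using 2

end MSG.F32
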